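import Mathlib

/-!
Memory-restricted black-box complexity: every memory size is separated from the next one.
-/

set_option autoImplicit false

namespace Pool.Agent.Results.MP_baa74b_lc.MemorySeparation

open scoped Classical ENNReal

/-- A `(μ + 1)` memory-restricted black-box algorithm. -/
structure Algo (S : Type) (μ : ℕ) where
  /-- the distribution of the initial points -/
  init : PMF (Fin μ → S)
  /-- the distribution of the next query, depending on the memory -/
  query : Multiset (S × ℝ) → PMF S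
  /-- the distribution of the pair removed from `μ + 1` pairs -/
  remove : Multiset (S × ℝ) → PMF (S × ℝ)
  remove_mem : ∀ X, X ≠ 0 → ∀ a ∈ (remove X).support, a ∈ X

/-- `y` is a maximiser of `f`. -/
def IsMax {S : Type} (f : S → ℝ) (y : S) : Prop := ∀ z, f z ≤ f y

/-- The joint distribution, after the `μ` initial queries and `t` rounds, of the statement that a
maximiser has been queried and of the memory. -/
noncomputable def run {S : Type} {μ : ℕ} (A : Algo S μ) (f : S → ℝ) :
    ℕ → PMF (Bool × Multiset (S × ℝ))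
  | 0 => A.init.map fun v => (decide (∃ i, IsMax f (v i)),
      (Finset.univ : Finset (Fin μ)).val.map fun i => (v i, f (v i)))
  | t + 1 => (run A f t).bind fun p => (A.query p.2).bind fun y =>
      (A.remove ((y, f y) ::ₘ p.2)).map fun a =>
        (p.1 || decide (IsMax f y), ((y, f y) ::ₘ p.2).erase a)

/-- The expected number of queries up to the first query of a maximiser, as the sum over `j` of the
probability that the first `j` queries contain no maximiser: the terms `j < μ` only concern initial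
queries, the term `j = μ + t` is the probability that no maximiser is found in `t` rounds. -/
noncomputable def time {S : Type} {μ : ℕ} (A : Algo S μ) (f : S → ℝ) : ℝ≥0∞ :=
  ∑ j : Fin μ, A.init.toOuterMeasure {v | ∀ i, i < j → ¬ IsMax f (v i)} +
    ∑' t, ((run A f t).map Prod.fst) false

/-- The `(μ + 1)` memory-restricted black-box complexity of the class `F`. -/
noncomputable def C {S : Type} (μ : ℕ) (F : Set (S → ℝ)) : ℝ≥0∞ :=
  ⨅ A : Algo S μ, ⨆ f ∈ F, time A f

/-! ### Expectations -/

/-- expectation -/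
noncomputable def ex {α : Type} (p : PMF α) (φ : α → ℝ≥0∞) : ℝ≥0∞ := ∑' a, p a * φ a

theorem ex_pure {α : Type} (a : α) (φ : α → ℝ≥0∞) : ex (PMF.pure a) φ = φ a := by
  unfold ex
  rw [tsum_eq_single a]
  · simp
  · intro b hb
    simp [PMF.pure_apply, hb]

theorem ex_bind {α β : Type} (p : PMF α) (f : α → PMF β) (φ : β → ℝ≥0∞) :
    ex (p.bind f) φ = ex p fun a => ex (f a) φ := by
  unfold ex
  simp only [PMF.bind_apply, ← ENNReal.tsum_mul_right, ← ENNReal.tsum_mul_left, mul_assoc]
  exact ENNReal.tsum_comm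

theorem ex_map {α β : Type} (p : PMF α) (f : α → β) (φ : β → ℝ≥0∞) :
    ex (p.map f) φ = ex p fun a => φ (f a) := by
  unfold PMF.map
  rw [ex_bind]
  simp only [Function.comp_apply, ex_pure]

theorem ex_mono {α : Type} (p : PMF α) {φ ψ : α → ℝ≥0∞} (h : ∀ a ∈ p.support, φ a ≤ ψ a) :
    ex p φ ≤ ex p ψ := by
  unfold ex
  refine ENNReal.tsum_le_tsum fun a => ?_
  by_cases ha : a ∈ p.support
  · exact mul_le_mul_right (h a ha) _
  · have : p a = 0 := by simpa [PMF.mem_support_iff] using ha
    simp [this]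

theorem ex_const {α : Type} (p : PMF α) (c : ℝ≥0∞) : ex p (fun _ => c) = c := by
  unfold ex
  rw [ENNReal.tsum_mul_right, p.tsum_coe, one_mul]

theorem ex_add {α : Type} (p : PMF α) (φ ψ : α → ℝ≥0∞) :
    ex p (fun a => φ a + ψ a) = ex p φ + ex p ψ := by
  unfold ex
  simp only [mul_add]
  exact ENNReal.tsum_add

theorem ex_mul {α : Type} (p : PMF α) (c : ℝ≥0∞) (φ : α → ℝ≥0∞) :
    ex p (fun a => c * φ a) = c * ex p φ := by
  unfold ex
  rw [← ENNReal.tsum_mul_left]
  congr 1
  funext a
  ring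

theorem ex_sum {α ι : Type} (p : PMF α) (T : Finset ι) (φ : ι → α → ℝ≥0∞) :
    ex p (fun a => ∑ i ∈ T, φ i a) = ∑ i ∈ T, ex p (φ i) := by
  induction T using Finset.induction_on with
  | empty => simp [ex]
  | insert i T hi ih =>
    simp only [Finset.sum_insert hi]
    rw [ex_add, ih]

theorem ex_ind {α : Type} [DecidableEq α] (p : PMF α) (b : α) :
    ex p (fun a => if a = b then 1 else 0) = p b := by
  unfold ex
  rw [tsum_eq_single b]
  · simp
  · intro a ha
    simp [ha]

theorem ex_fin {α : Type} [Fintype α] (p : PMF α) (φ : α → ℝ≥0∞) : ex p φ = ∑ a, p a * φ a := by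
  unfold ex
  exact tsum_fintype _

/-- the probability of having found no maximiser -/
theorem lost_eq {S : Type} {μ : ℕ} (A : Algo S μ) (f : S → ℝ) (t : ℕ) :
    ((run A f t).map Prod.fst) false = ex (run A f t) fun p => if p.1 = false then 1 else 0 := by
  rw [← ex_ind ((run A f t).map Prod.fst) false, ex_map]

/-- the probability of having found a maximiser -/
noncomputable def fnd {S : Type} {μ : ℕ} (A : Algo S μ) (f : S → ℝ) (t : ℕ) : ℝ≥0∞ :=
  ex (run A f t) fun p => if p.1 = true then 1 else 0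

theorem lost_add {S : Type} {μ : ℕ} (A : Algo S μ) (f : S → ℝ) (t : ℕ) :
    ((run A f t).map Prod.fst) false + fnd A f t = 1 := by
  rw [lost_eq]
  unfold fnd
  rw [← ex_add]
  refine Eq.trans ?_ (ex_const (run A f t) 1)
  congr 1
  funext p
  rcases p.1 <;> simp

theorem lost_anti {S : Type} {μ : ℕ} (A : Algo S μ) (f : S → ℝ) (t : ℕ) :
    ((run A f (t + 1)).map Prod.fst) false ≤ ((run A f t).map Prod.fst) false := by
  rw [lost_eq, lost_eq]
  simp only [run]
  rw [ex_bind]
  refine ex_mono _ fun p _ => ?_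
  rw [ex_bind]
  refine (ex_mono _ fun y _ => ?_).trans (le_of_eq (ex_const (A.query p.2) _))
  rw [ex_map]
  refine (ex_mono _ fun a _ => ?_).trans
    (le_of_eq (ex_const (A.remove ((y, f y) ::ₘ p.2)) (if p.1 = false then 1 else 0)))
  rcases p.1 <;> simp
  split_ifs <;> simp

/-- `z` is the only maximiser: the probability of finding it in the next round -/
theorem fnd_succ {S : Type} {μ : ℕ} (A : Algo S μ) (f : S → ℝ) (z : S)
    (hz : ∀ y, IsMax f y ↔ y = z) (t : ℕ) :
    fnd A f (t + 1) ≤ fnd A f t +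
      ex (run A f t) fun p => if p.1 = false then A.query p.2 z else 0 := by
  unfold fnd
  rw [← ex_add]
  simp only [run]
  rw [ex_bind]
  refine ex_mono _ fun p _ => ?_
  rw [ex_bind]
  have h1 : ∀ y, ex ((A.remove ((y, f y) ::ₘ p.2)).map fun a =>
      (p.1 || decide (IsMax f y), ((y, f y) ::ₘ p.2).erase a))
      (fun q => if q.1 = true then 1 else 0) =
      if p.1 = true ∨ y = z then 1 else 0 := by
    intro y
    rw [ex_map]
    simp only [Bool.or_eq_true, decide_eq_true_eq, hz]
    exact ex_const _ _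
  simp only [h1]
  rcases p.1
  · simp only [Bool.false_eq_true, false_or, if_false, if_true, zero_add]
    rw [ex_ind]
  · simp only [true_or, if_true, ex_const]
    exact le_self_add

/-! ### The class of functions -/

section

variable {μ m : ℕ} [NeZero m]

/-- the search space -/
abbrev Sp (μ m : ℕ) : Type := Fin (μ + 1) ⊕ ZMod m

/-- The function with shares `r`: the point `inl i` has the value `r i`, and the maximiser is the
point `inr (∑ i, r i)`. -/
noncomputable def fr (r : Fin (μ + 1) → ZMod m) : Sp μ m → ℝ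
  | Sum.inl i => ((r i).val : ℝ)
  | Sum.inr k => if k = ∑ i, r i then (m : ℝ) else -1

/-- the same without the maximiser -/
noncomputable def gr (r : Fin (μ + 1) → ZMod m) : Sp μ m → ℝ
  | Sum.inl i => ((r i).val : ℝ)
  | Sum.inr _ => -1

theorem isMax_iff (r : Fin (μ + 1) → ZMod m) (y : Sp μ m) :
    IsMax (fr r) y ↔ y = Sum.inr (∑ i, r i) := by
  have hm : (0 : ℝ) < m := by exact_mod_cast Nat.pos_of_ne_zero (NeZero.ne m)
  have hval : ∀ i, ((r i).val : ℝ) < m := fun i => by exact_mod_cast ZMod.val_lt (r i)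
  constructor
  · intro h
    have h1 := h (Sum.inr (∑ i, r i))
    have h0 : fr r (Sum.inr (∑ i, r i)) = m := if_pos rfl
    rw [h0] at h1
    rcases y with i | k
    · exact absurd h1 (not_le.2 (hval i))
    · by_cases hk : k = ∑ i, r i
      · rw [hk]
      · have h2 : fr r (Sum.inr k) = -1 := if_neg hk
        rw [h2] at h1
        linarith
  · rintro rfl z
    rcases z with i | k
    · simp only [fr, if_true]
      exact (hval i).le
    · simp only [fr, if_true]
      split_ifs <;> linarith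

omit [NeZero m] in
theorem fr_eq_gr (r : Fin (μ + 1) → ZMod m) (y : Sp μ m) (h : y ≠ Sum.inr (∑ i, r i)) :
    fr r y = gr r y := by
  rcases y with i | k
  · rfl
  · simp only [fr, gr]
    rw [if_neg]
    intro hk
    exact h (by rw [hk])

/-- If `D r` and `w r` do not depend on the share `r i`, then a sample from `D r` is the maximiser
with probability `1 / m`. -/
theorem key (i : Fin (μ + 1)) (D : (Fin (μ + 1) → ZMod m) → PMF (Sp μ m))
    (w : (Fin (μ + 1) → ZMod m) → ℝ≥0∞) (hD : ∀ r c, D (r + Pi.single i c) = D r)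
    (hw : ∀ r c, w (r + Pi.single i c) = w r) :
    (m : ℝ≥0∞) * ∑ r, w r * D r (Sum.inr (∑ j, r j)) ≤ ∑ r, w r := by
  have h1 : ∀ c : ZMod m, ∑ r, w r * D r (Sum.inr (∑ j, r j)) =
      ∑ r, w r * D r (Sum.inr (∑ j, r j + c)) := by
    intro c
    rw [← Equiv.sum_comp (Equiv.addRight (Pi.single i c : Fin (μ + 1) → ZMod m))]
    refine Finset.sum_congr rfl fun r _ => ?_
    simp only [Equiv.coe_addRight, hD, hw, Pi.add_apply, Finset.sum_add_distrib,
      Finset.sum_pi_single', Finset.mem_univ, if_true]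
  have h2 : (m : ℝ≥0∞) * ∑ r, w r * D r (Sum.inr (∑ j, r j)) =
      ∑ c : ZMod m, ∑ r, w r * D r (Sum.inr (∑ j, r j + c)) := by
    rw [Finset.sum_congr rfl fun c _ => (h1 c).symm, Finset.sum_const, Finset.card_univ,
      ZMod.card, nsmul_eq_mul]
  rw [h2, Finset.sum_comm]
  refine Finset.sum_le_sum fun r _ => ?_
  rw [← Finset.mul_sum]
  refine mul_le_of_le_one_right' ?_
  have h3 : ∑ c : ZMod m, D r (Sum.inr (∑ j, r j + c)) = ∑ k : ZMod m, D r (Sum.inr k) :=
    Equiv.sum_comp (Equiv.addLeft (∑ j, r j)) fun k => D r (Sum.inr k)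
  rw [h3]
  have h4 : ∑ y : Sp μ m, D r y = 1 := by
    rw [← tsum_fintype (L := SummationFilter.unconditional _)]
    exact (D r).tsum_coe
  rw [← h4, Fintype.sum_sum_type]
  exact le_add_self

omit [NeZero m] in
theorem gr_indep (r : Fin (μ + 1) → ZMod m) {i : Fin (μ + 1)} (c : ZMod m) {y : Sp μ m}
    (h : y ≠ Sum.inl i) : gr (r + Pi.single i c) y = gr r y := by
  rcases y with j | k
  · have hj : j ≠ i := fun e => h (by rw [e])
    simp only [gr, Pi.add_apply, Pi.single_eq_of_ne hj, add_zero]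
  · rfl

omit [NeZero m] in
/-- some share is not among `μ` points -/
theorem unhit (u : Fin μ → Sp μ m) : ∃ i : Fin (μ + 1), ∀ j, u j ≠ Sum.inl i := by
  by_contra h
  push Not at h
  choose e he using h
  have hinj : Function.Injective e := by
    intro a b hab
    have h1 := he a
    rw [hab, he b] at h1
    exact (Sum.inl_injective h1).symm
  have := Fintype.card_le_of_injective e hinj
  simp at this

/-- the memory after the initial queries `v`, if they contain no maximiser -/
noncomputable def Xg (v : Fin μ → Sp μ m) (r : Fin (μ + 1) → ZMod m) : Multiset (Sp μ m × ℝ) :=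
  (Finset.univ : Finset (Fin μ)).val.map fun i => (v i, gr r (v i))

omit [NeZero m] in
theorem Xg_indep {v : Fin μ → Sp μ m} {i : Fin (μ + 1)} (h : ∀ j, v j ≠ Sum.inl i)
    (r : Fin (μ + 1) → ZMod m) (c : ZMod m) : Xg v (r + Pi.single i c) = Xg v r := by
  unfold Xg
  refine Multiset.map_congr rfl fun j _ => ?_
  rw [gr_indep r c (h j)]

theorem sum_one_le (D : (Fin (μ + 1) → ZMod m) → PMF (Sp μ m)) (i : Fin (μ + 1))
    (hD : ∀ r c, D (r + Pi.single i c) = D r) :
    (m : ℝ≥0∞) * ∑ r, D r (Sum.inr (∑ j, r j)) ≤ ∑ _r : Fin (μ + 1) → ZMod m, 1 := by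
  have := key i D (fun _ => 1) hD (fun _ _ => rfl)
  simpa using this

/-- the bound for the second round -/
theorem second (A : Algo (Sp μ m) μ) (v : Fin μ → Sp μ m) :
    (m : ℝ≥0∞) * ∑ r, ex (A.query (Xg v r)) (fun y =>
      ex (A.remove ((y, gr r y) ::ₘ Xg v r)) fun a =>
        A.query (((y, gr r y) ::ₘ Xg v r).erase a) (Sum.inr (∑ j, r j))) ≤
      ((μ + 1 : ℕ) * (μ + 1 : ℕ) + 1) * ∑ _r : Fin (μ + 1) → ZMod m, (1 : ℝ≥0∞) := by
  obtain ⟨i0, hi0⟩ := unhit v
  obtain ⟨E, hE⟩ : ∃ E : Sp μ m → (Fin (μ + 1) → ZMod m) → ℝ≥0∞, E = fun y r =>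
      ex (A.remove ((y, gr r y) ::ₘ Xg v r)) fun a =>
        A.query (((y, gr r y) ::ₘ Xg v r).erase a) (Sum.inr (∑ j, r j)) := ⟨_, rfl⟩
  have h0 : ∑ r, ex (A.query (Xg v r)) (fun y =>
      ex (A.remove ((y, gr r y) ::ₘ Xg v r)) fun a =>
        A.query (((y, gr r y) ::ₘ Xg v r).erase a) (Sum.inr (∑ j, r j))) =
      ∑ y, ∑ r, A.query (Xg v r) y * E y r := by
    rw [Finset.sum_comm]
    refine Finset.sum_congr rfl fun r _ => ?_
    rw [ex_fin, hE]
  have hinl : ∀ i1 : Fin (μ + 1), (m : ℝ≥0∞) * ∑ r, A.query (Xg v r) (Sum.inl i1) *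
      E (Sum.inl i1) r ≤ (μ + 1 : ℕ) * ∑ _r : Fin (μ + 1) → ZMod m, (1 : ℝ≥0∞) := by
    intro i1
    have e1 : ∀ r, A.query (Xg v r) (Sum.inl i1) * E (Sum.inl i1) r ≤
        A.query (Xg v r) (Sum.inr (∑ j, r j)) +
        ∑ j : Fin μ, A.query (((Sum.inl i1, gr r (Sum.inl i1)) : Sp μ m × ℝ) ::ₘ
          (Finset.univ.erase j).val.map fun i => (v i, gr r (v i))) (Sum.inr (∑ j, r j)) := by
      intro r
      refine (mul_le_of_le_one_left' (PMF.coe_le_one _ _)).trans ?_
      rw [hE]
      refine (ex_mono _ fun a ha => ?_).trans (le_of_eq (ex_const (A.remove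
        ((Sum.inl i1, gr r (Sum.inl i1)) ::ₘ Xg v r)) _))
      have ha' := A.remove_mem _ (Multiset.cons_ne_zero) a ha
      rw [Multiset.mem_cons] at ha'
      rcases ha' with ha' | ha'
      · rw [ha', Multiset.erase_cons_head]
        exact le_self_add
      · unfold Xg at ha'
        rw [Multiset.mem_map] at ha'
        obtain ⟨j, -, hj⟩ := ha'
        have e2 : (Sum.inl i1, gr r (Sum.inl i1)) ::ₘ Xg v r = a ::ₘ
            ((Sum.inl i1, gr r (Sum.inl i1)) ::ₘ
              (Finset.univ.erase j).val.map fun i => (v i, gr r (v i))) := by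
          rw [Multiset.cons_swap, ← hj]
          congr 1
          unfold Xg
          have e3 : (Finset.univ : Finset (Fin μ)).val = j ::ₘ (Finset.univ.erase j).val := by
            rw [Finset.erase_val, Multiset.cons_erase]
            exact Finset.mem_univ_val j
          rw [e3, Multiset.map_cons]
        rw [e2, Multiset.erase_cons_head]
        refine le_trans ?_ le_add_self
        exact Finset.single_le_sum (f := fun j => A.query (((Sum.inl i1, gr r (Sum.inl i1)) :
          Sp μ m × ℝ) ::ₘ (Finset.univ.erase j).val.map fun i => (v i, gr r (v i)))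
          (Sum.inr (∑ j, r j))) (fun _ _ => bot_le) (Finset.mem_univ j)
    refine (mul_le_mul_right (Finset.sum_le_sum fun r _ => e1 r) _).trans ?_
    rw [Finset.sum_add_distrib, mul_add]
    have e4 := sum_one_le (fun r => A.query (Xg v r)) i0 fun r c => by rw [Xg_indep hi0]
    have e5 : ∀ j : Fin μ, (m : ℝ≥0∞) * ∑ r, A.query (((Sum.inl i1, gr r (Sum.inl i1)) :
        Sp μ m × ℝ) ::ₘ (Finset.univ.erase j).val.map fun i => (v i, gr r (v i)))
        (Sum.inr (∑ j, r j)) ≤ ∑ _r : Fin (μ + 1) → ZMod m, (1 : ℝ≥0∞) := by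
      intro j
      obtain ⟨i', hi'⟩ := unhit (Function.update v j (Sum.inl i1))
      refine sum_one_le (fun r => A.query (((Sum.inl i1, gr r (Sum.inl i1)) :
        Sp μ m × ℝ) ::ₘ (Finset.univ.erase j).val.map fun i => (v i, gr r (v i)))) i'
        fun r c => ?_
      have h1 := hi' j
      rw [Function.update_self] at h1
      have h2 : ∀ j', j' ≠ j → v j' ≠ Sum.inl i' := by
        intro j' hj'
        have := hi' j'
        rwa [Function.update_of_ne hj'] at this
      rw [gr_indep r c h1]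
      congr 2
      refine Multiset.map_congr rfl fun j' hj' => ?_
      rw [gr_indep r c (h2 j' (Finset.ne_of_mem_erase (s := Finset.univ) hj'))]
    have e6 : (m : ℝ≥0∞) * ∑ r : Fin (μ + 1) → ZMod m, ∑ j : Fin μ,
        A.query (((Sum.inl i1, gr r (Sum.inl i1)) :
        Sp μ m × ℝ) ::ₘ (Finset.univ.erase j).val.map fun i => (v i, gr r (v i)))
        (Sum.inr (∑ j, r j)) ≤ μ * ∑ _r : Fin (μ + 1) → ZMod m, (1 : ℝ≥0∞) := by
      rw [Finset.sum_comm, Finset.mul_sum]
      refine (Finset.sum_le_sum fun j _ => e5 j).trans (le_of_eq ?_)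
      rw [Finset.sum_const, Finset.card_univ, Fintype.card_fin, nsmul_eq_mul]
    refine (add_le_add e4 e6).trans (le_of_eq ?_)
    push_cast
    ring
  have hinr : ∀ k : ZMod m, (m : ℝ≥0∞) * ∑ r, A.query (Xg v r) (Sum.inr k) *
      E (Sum.inr k) r ≤ ∑ r, A.query (Xg v r) (Sum.inr k) := by
    intro k
    have h1 : ∀ r c, (Sum.inr k, gr (r + Pi.single i0 c) (Sum.inr k)) ::ₘ
        Xg v (r + Pi.single i0 c) = (Sum.inr k, gr r (Sum.inr k)) ::ₘ Xg v r := by
      intro r c
      rw [Xg_indep hi0]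
      rfl
    have h2 := key i0 (fun r => (A.remove ((Sum.inr k, gr r (Sum.inr k)) ::ₘ Xg v r)).bind
      fun a => A.query (((Sum.inr k, gr r (Sum.inr k)) ::ₘ Xg v r).erase a))
      (fun r => A.query (Xg v r) (Sum.inr k)) (fun r c => by simp only [h1])
      (fun r c => by rw [Xg_indep hi0])
    rw [hE]
    exact h2
  rw [h0, Fintype.sum_sum_type, mul_add, Finset.mul_sum, Finset.mul_sum]
  refine (add_le_add (Finset.sum_le_sum fun i _ => hinl i)
    (Finset.sum_le_sum fun k _ => hinr k)).trans ?_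
  rw [Finset.sum_const, Finset.card_univ, Fintype.card_fin, nsmul_eq_mul, Finset.sum_comm,
    add_mul, one_mul, mul_assoc]
  refine add_le_add le_rfl (Finset.sum_le_sum fun r _ => ?_)
  have h4 : ∑ y : Sp μ m, A.query (Xg v r) y = 1 := by
    rw [← tsum_fintype (L := SummationFilter.unconditional _)]
    exact (A.query (Xg v r)).tsum_coe
  rw [← h4, Fintype.sum_sum_type]
  exact le_add_self

/-- everything that can find the maximiser within two rounds -/
noncomputable def W (A : Algo (Sp μ m) μ) (v : Fin μ → Sp μ m) (r : Fin (μ + 1) → ZMod m) :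
    ℝ≥0∞ :=
  ∑ i, PMF.pure (v i) (Sum.inr (∑ j, r j)) + A.query (Xg v r) (Sum.inr (∑ j, r j)) +
    ex (A.query (Xg v r)) (fun y => ex (A.remove ((y, gr r y) ::ₘ Xg v r)) fun a =>
      A.query (((y, gr r y) ::ₘ Xg v r).erase a) (Sum.inr (∑ j, r j)))

omit [NeZero m] in
theorem Xf_eq (v : Fin μ → Sp μ m) (r : Fin (μ + 1) → ZMod m)
    (h : ∀ i, v i ≠ Sum.inr (∑ j, r j)) :
    ((Finset.univ : Finset (Fin μ)).val.map fun i => (v i, fr r (v i))) = Xg v r := by
  unfold Xg
  refine Multiset.map_congr rfl fun i _ => ?_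
  rw [fr_eq_gr r _ (h i)]

theorem fnd_two (A : Algo (Sp μ m) μ) (r : Fin (μ + 1) → ZMod m) :
    fnd A (fr r) 2 ≤ ex A.init fun v => W A v r := by
  have hz := isMax_iff r
  have h2 := fnd_succ A (fr r) _ hz 1
  have h1 := fnd_succ A (fr r) _ hz 0
  refine h2.trans ((add_le_add h1 le_rfl).trans ?_)
  unfold W
  rw [ex_add, ex_add]
  refine add_le_add (add_le_add ?_ ?_) ?_
  · unfold fnd
    simp only [run]
    rw [ex_map]
    refine ex_mono _ fun v _ => ?_
    simp only [decide_eq_true_eq, hz]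
    split_ifs with h
    · obtain ⟨i, hi⟩ := h
      refine le_trans ?_ (Finset.single_le_sum
        (f := fun i => PMF.pure (v i) (Sum.inr (∑ j, r j))) (fun _ _ => bot_le)
        (Finset.mem_univ i))
      rw [PMF.pure_apply, if_pos hi.symm]
    · exact bot_le
  · simp only [run]
    rw [ex_map]
    refine ex_mono _ fun v _ => ?_
    by_cases h : ∃ i, v i = Sum.inr (∑ j, r j)
    · refine le_trans (le_of_eq ?_) bot_le
      have e1 : decide (∃ i, IsMax (fr r) (v i)) = true := by
        simp only [decide_eq_true_eq, hz]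
        exact h
      rw [e1]
      rfl
    · push Not at h
      rw [Xf_eq v r h]
      dsimp only
      split_ifs
      · exact le_rfl
      · exact bot_le
  · simp only [run]
    rw [ex_bind, ex_map]
    refine ex_mono _ fun v _ => ?_
    by_cases h : ∃ i, v i = Sum.inr (∑ j, r j)
    · refine le_trans (le_of_eq ?_) bot_le
      have e1 : decide (∃ i, IsMax (fr r) (v i)) = true := by
        simp only [decide_eq_true_eq, hz]
        exact h
      rw [e1]
      simp only [ex_bind, ex_map, Bool.true_or, Bool.true_eq_false, if_false, ex_const]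
      rfl
    · push Not at h
      rw [Xf_eq v r h, ex_bind]
      refine ex_mono _ fun y _ => ?_
      rw [ex_map]
      by_cases hy : y = Sum.inr (∑ j, r j)
      · refine le_trans (le_of_eq ?_) bot_le
        have e2 : decide (IsMax (fr r) y) = true := by
          simp only [decide_eq_true_eq, hz]
          exact hy
        simp only [e2, Bool.or_true, Bool.true_eq_false, if_false]
        exact ex_const _ _
      · rw [fr_eq_gr r y hy]
        refine ex_mono _ fun a _ => ?_
        dsimp only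
        split_ifs
        · have e : ∀ (i1 i2 : DecidableEq (Sp μ m × ℝ)),
              A.query (@Multiset.erase _ i1 ((y, gr r y) ::ₘ Xg v r) a) (Sum.inr (∑ j, r j)) ≤
              A.query (@Multiset.erase _ i2 ((y, gr r y) ::ₘ Xg v r) a) (Sum.inr (∑ j, r j)) :=
            fun i1 i2 => by rw [Subsingleton.elim i1 i2]
          exact e _ _
        · exact bot_le

theorem sum_fnd (A : Algo (Sp μ m) μ) :
    (m : ℝ≥0∞) * ∑ r, fnd A (fr r) 2 ≤
      (μ + 1 + ((μ + 1 : ℕ) * (μ + 1 : ℕ) + 1)) * ∑ _r : Fin (μ + 1) → ZMod m, (1 : ℝ≥0∞) := by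
  have h1 : ∑ r, fnd A (fr r) 2 ≤ ex A.init fun v => ∑ r, W A v r := by
    rw [ex_sum]
    exact Finset.sum_le_sum fun r _ => fnd_two A r
  refine (mul_le_mul_right h1 _).trans ?_
  rw [← ex_mul]
  refine (ex_mono _ fun v _ => ?_).trans (le_of_eq (ex_const A.init _))
  unfold W
  rw [Finset.sum_add_distrib, Finset.sum_add_distrib, mul_add, mul_add, add_mul, add_mul, one_mul]
  refine add_le_add (add_le_add ?_ ?_) (second A v)
  · rw [Finset.sum_comm, Finset.mul_sum]
    have e1 : ∀ i : Fin μ, (m : ℝ≥0∞) * ∑ r : Fin (μ + 1) → ZMod m,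
        PMF.pure (v i) (Sum.inr (∑ j, r j)) ≤ ∑ _r : Fin (μ + 1) → ZMod m, (1 : ℝ≥0∞) :=
      fun i => sum_one_le (fun _ => PMF.pure (v i)) 0 fun _ _ => rfl
    refine (Finset.sum_le_sum fun i _ => e1 i).trans (le_of_eq ?_)
    rw [Finset.sum_const, Finset.card_univ, Fintype.card_fin, nsmul_eq_mul]
  · obtain ⟨i0, hi0⟩ := unhit v
    exact sum_one_le (fun r => A.query (Xg v r)) i0 fun r c => by rw [Xg_indep hi0]

theorem exists_small (A : Algo (Sp μ m) μ) : ∃ r, (m : ℝ≥0∞) * fnd A (fr r) 2 ≤
    μ + 1 + ((μ + 1 : ℕ) * (μ + 1 : ℕ) + 1) := by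
  by_contra h
  push Not at h
  have h1 := sum_fnd A
  rw [Finset.mul_sum, Finset.mul_sum] at h1
  have h2 := ENNReal.sum_lt_sum_of_nonempty (s := (Finset.univ : Finset (Fin (μ + 1) → ZMod m)))
    Finset.univ_nonempty (fun r _ => h r)
  simp only [mul_one] at h1
  exact absurd h1 (not_le.2 h2)

/-- the expected time is at least `μ + 3` times the probability of failure in two rounds -/
theorem time_ge {S : Type} (A : Algo S μ) (f : S → ℝ) :
    (μ + 3 : ℕ) * ((run A f 2).map Prod.fst) false ≤ time A f := by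
  have a1 := lost_anti A f 0
  have a2 := lost_anti A f 1
  have h0 : ((run A f 2).map Prod.fst) false ≤ ((run A f 0).map Prod.fst) false :=
    a2.trans a1
  unfold time
  have h1 : (μ : ℝ≥0∞) * ((run A f 2).map Prod.fst) false ≤
      ∑ j : Fin μ, A.init.toOuterMeasure {v | ∀ i, i < j → ¬ IsMax f (v i)} := by
    have e1 : ∀ j : Fin μ, ((run A f 2).map Prod.fst) false ≤
        A.init.toOuterMeasure {v | ∀ i, i < j → ¬ IsMax f (v i)} := by
      intro j
      refine h0.trans ?_
      rw [lost_eq, PMF.toOuterMeasure_apply]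
      simp only [run]
      rw [ex_map]
      unfold ex
      refine ENNReal.tsum_le_tsum fun v => ?_
      by_cases h : ∃ i, IsMax f (v i)
      · have e1 : decide (∃ i, IsMax f (v i)) = true := decide_eq_true h
        dsimp only
        rw [e1]
        simp
      · have e1 : decide (∃ i, IsMax f (v i)) = false := decide_eq_false h
        dsimp only
        rw [e1, if_pos rfl, mul_one, Set.indicator_of_mem]
        push Not at h
        exact fun i _ => h i
    refine le_trans (le_of_eq ?_) (Finset.sum_le_sum fun j _ => e1 j)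
    rw [Finset.sum_const, Finset.card_univ, Fintype.card_fin, nsmul_eq_mul]
  have h2 : 3 * ((run A f 2).map Prod.fst) false ≤ ∑' t, ((run A f t).map Prod.fst) false := by
    refine le_trans ?_ (ENNReal.sum_le_tsum (Finset.range 3))
    rw [Finset.sum_range_succ, Finset.sum_range_succ, Finset.sum_range_one]
    calc 3 * ((run A f 2).map Prod.fst) false = ((run A f 2).map Prod.fst) false +
        ((run A f 2).map Prod.fst) false + ((run A f 2).map Prod.fst) false := by ring
      _ ≤ _ := add_le_add (add_le_add h0 a2) le_rfl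
  refine le_trans (le_of_eq ?_) (add_le_add h1 h2)
  push_cast
  ring

end

/-! ### The upper bound -/

/-- the algorithm with one more memory cell -/
noncomputable def alg (μ m : ℕ) : Algo (Sp μ m) (μ + 1) where
  init := PMF.pure Sum.inl
  query := fun X => PMF.pure (Sum.inr ((X.map fun p => ((⌊p.2⌋₊ : ℕ) : ZMod m)).sum))
  remove := fun X => if h : ∃ a, a ∈ X then PMF.pure h.choose else PMF.pure (Sum.inl 0, 0)
  remove_mem := by
    intro X hX a ha
    have h : ∃ a, a ∈ X := Multiset.exists_mem_of_ne_zero hX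
    rw [dif_pos h, PMF.support_pure, Set.mem_singleton_iff] at ha
    rw [ha]
    exact h.choose_spec

theorem alg_found {μ m : ℕ} [NeZero m] (r : Fin (μ + 1) → ZMod m) (t : ℕ) :
    ∀ p ∈ (run (alg μ m) (fr r) (t + 1)).support, p.1 = true := by
  induction t with
  | zero =>
    intro p hp
    simp only [run, PMF.mem_support_bind_iff, PMF.support_map, Set.mem_image] at hp
    obtain ⟨q, ⟨v, hv, rfl⟩, y, hy, a, -, rfl⟩ := hp
    have hv' : v = Sum.inl := by
      have : v ∈ (PMF.pure (Sum.inl : Fin (μ + 1) → Sp μ m)).support := hv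
      rwa [PMF.support_pure, Set.mem_singleton_iff] at this
    have hy' : y = Sum.inr (Multiset.sum (Multiset.map
        (fun p : Sp μ m × ℝ => ((⌊p.2⌋₊ : ℕ) : ZMod m))
        ((Finset.univ : Finset (Fin (μ + 1))).val.map fun i => (v i, fr r (v i))))) := by
      have : y ∈ (PMF.pure (Sum.inr (Multiset.sum (Multiset.map
        (fun p : Sp μ m × ℝ => ((⌊p.2⌋₊ : ℕ) : ZMod m))
        ((Finset.univ : Finset (Fin (μ + 1))).val.map fun i => (v i, fr r (v i))))) :
          Sp μ m)).support := hy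
      rwa [PMF.support_pure, Set.mem_singleton_iff] at this
    have hy2 : y = Sum.inr (∑ i, r i) := by
      rw [hy', hv', Multiset.map_map]
      have : ((fun p : Sp μ m × ℝ => ((⌊p.2⌋₊ : ℕ) : ZMod m)) ∘
          fun i : Fin (μ + 1) => ((Sum.inl i : Sp μ m), fr r (Sum.inl i))) = r := by
        funext i
        show ((⌊((r i).val : ℝ)⌋₊ : ℕ) : ZMod m) = r i
        rw [Nat.floor_natCast, ZMod.natCast_zmod_val]
      rw [this]
      rfl
    simp only [Bool.or_eq_true, decide_eq_true_eq]
    right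
    rw [isMax_iff, hy2]
  | succ t ih =>
    intro p hp
    rw [run, PMF.mem_support_bind_iff] at hp
    obtain ⟨q, hq, hp⟩ := hp
    simp only [PMF.mem_support_bind_iff, PMF.support_map, Set.mem_image] at hp
    obtain ⟨y, -, a, -, rfl⟩ := hp
    simp only [ih q hq, Bool.true_or]

theorem alg_time {μ m : ℕ} [NeZero m] (r : Fin (μ + 1) → ZMod m) :
    time (alg μ m) (fr r) ≤ (μ + 2 : ℕ) := by
  have h1 : ∀ t, t ≠ 0 → ((run (alg μ m) (fr r) t).map Prod.fst) false = 0 := by
    intro t ht
    obtain ⟨s, rfl⟩ := Nat.exists_eq_succ_of_ne_zero ht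
    rw [lost_eq]
    refine le_antisymm ?_ bot_le
    refine (ex_mono _ fun p hp => ?_).trans (le_of_eq (ex_const _ 0))
    rw [alg_found r s p hp]
    simp
  unfold time
  rw [tsum_eq_single 0 h1]
  have h2 : ∑ j : Fin (μ + 1), (alg μ m).init.toOuterMeasure
      {v | ∀ i, i < j → ¬ IsMax (fr r) (v i)} ≤ ∑ _j : Fin (μ + 1), (1 : ℝ≥0∞) := by
    refine Finset.sum_le_sum fun j _ => ?_
    rw [PMF.toOuterMeasure_apply, ← (alg μ m).init.tsum_coe]
    refine ENNReal.tsum_le_tsum fun v => ?_
    exact Set.indicator_le_self _ _ _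
  refine (add_le_add h2 (PMF.coe_le_one _ _)).trans (le_of_eq ?_)
  rw [Finset.sum_const, Finset.card_univ, Fintype.card_fin, nsmul_eq_mul]
  push_cast
  ring

/-- For every `μ` there are a finite search space and a class of functions whose `(μ + 2)`
memory-restricted black-box complexity is at most `μ + 2`, while the `(μ + 1)` memory-restricted
black-box complexity is larger. -/
theorem result (μ : ℕ) : ∃ (S : Type) (_ : Fintype S) (F : Set (S → ℝ)),
    C (μ + 1) F < C μ F ∧ C (μ + 1) F ≤ (μ + 2 : ℕ) ∧ (μ + 2 : ℕ) < C μ F := by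
  obtain ⟨K, hK⟩ : ∃ K : ℕ, K = μ + 1 + ((μ + 1) * (μ + 1) + 1) := ⟨_, rfl⟩
  obtain ⟨m, hm⟩ : ∃ m : ℕ, m = (μ + 4) * K := ⟨_, rfl⟩
  have : NeZero m := ⟨by
    rw [hm]
    exact Nat.mul_ne_zero (by omega) (by omega)⟩
  have hup : C (μ + 1) (Set.range (fr (μ := μ) (m := m))) ≤ (μ + 2 : ℕ) := by
    unfold C
    refine (iInf_le _ (alg μ m)).trans ?_
    refine iSup₂_le ?_
    rintro _ ⟨r, rfl⟩
    exact alg_time r
  have hlow : (μ + 2 : ℕ) < C μ (Set.range (fr (μ := μ) (m := m))) := by
    have h1 : (((μ + 3) * (μ + 3) : ℕ) : ℝ≥0∞) / (μ + 4 : ℕ) ≤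
        C μ (Set.range (fr (μ := μ) (m := m))) := by
      unfold C
      refine le_iInf fun A => ?_
      obtain ⟨r, hr⟩ := exists_small A
      refine le_trans ?_ (le_iSup₂ (f := fun f (_ : f ∈ Set.range (fr (μ := μ) (m := m))) =>
        time A f) (fr r) ⟨r, rfl⟩)
      refine ENNReal.div_le_of_le_mul ?_
      have h2 := lost_add A (fr r) 2
      have h3 := time_ge A (fr r)
      obtain ⟨l, hl⟩ : ∃ l, l = ((run A (fr r) 2).map Prod.fst) false := ⟨_, rfl⟩
      rw [← hl] at h2 h3
      have h4 : ((μ + 4 : ℕ) : ℝ≥0∞) * fnd A (fr r) 2 ≤ 1 := by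
        have e1 : (K : ℝ≥0∞) * (((μ + 4 : ℕ) : ℝ≥0∞) * fnd A (fr r) 2) ≤ K * 1 := by
          have e2 : (K : ℝ≥0∞) * (((μ + 4 : ℕ) : ℝ≥0∞) * fnd A (fr r) 2) =
              m * fnd A (fr r) 2 := by
            have e3 : (m : ℝ≥0∞) = (μ + 4 : ℕ) * K := by exact_mod_cast hm
            rw [e3]
            ring
          rw [e2, mul_one]
          refine hr.trans (le_of_eq ?_)
          rw [hK]
          push_cast
          ring
        have hK0 : (K : ℝ≥0∞) ≠ 0 := by
          rw [hK]
          exact_mod_cast (by omega : μ + 1 + ((μ + 1) * (μ + 1) + 1) ≠ 0)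
        exact (ENNReal.mul_le_mul_iff_right hK0 (ENNReal.natCast_ne_top K)).1 e1
      have h5 : ((μ + 3 : ℕ) : ℝ≥0∞) ≤ (μ + 4 : ℕ) * l := by
        have e1 : ((μ + 3 : ℕ) : ℝ≥0∞) + 1 = (μ + 4 : ℕ) * (l + fnd A (fr r) 2) := by
          rw [h2]
          push_cast
          ring
        have e2 : ((μ + 3 : ℕ) : ℝ≥0∞) + 1 ≤ (μ + 4 : ℕ) * l + 1 := by
          rw [e1, mul_add]
          exact add_le_add le_rfl h4
        exact (ENNReal.add_le_add_iff_right ENNReal.one_ne_top).1 e2
      calc (((μ + 3) * (μ + 3) : ℕ) : ℝ≥0∞) = (μ + 3 : ℕ) * (μ + 3 : ℕ) := by push_cast; ring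
        _ ≤ (μ + 3 : ℕ) * ((μ + 4 : ℕ) * l) := mul_le_mul_right h5 _
        _ = ((μ + 3 : ℕ) * l) * (μ + 4 : ℕ) := by ring
        _ ≤ time A (fr r) * (μ + 4 : ℕ) := mul_le_mul_left h3 _
    refine lt_of_lt_of_le ?_ h1
    rw [ENNReal.lt_div_iff_mul_lt (Or.inl (by simp)) (Or.inl (ENNReal.natCast_ne_top _))]
    have : (μ + 2) * (μ + 4) < (μ + 3) * (μ + 3) := by ring_nf; omega
    exact_mod_cast this
  exact ⟨Sp μ m, inferInstance, Set.range fr, hup.trans_lt hlow, hup, hlow⟩

end Pool.Agent.Results.MP_baa74b_lc.MemorySeparation
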